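import Mathlib
import Pool.Agent.N734.MZ.Mu

/-!
# MP_807c24_nt: relations between the coefficients of the KZ associator, for almost all words

A pattern in `k` variables is a nonempty list of letters `b + u_1 s_1 + ... + u_k s_k`; at a tuple `s` of natural numbers
it gives an index. The first letters may be constant, of arbitrary weight, such as in `ζ(5, 1, s_1, 3, s_1 + s_2)`, and
all letters may be constant. The fronts of the pattern are the nonempty initial segments of the list of its constant
first letters.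

A family `(y, Z)` is an element `y` of a commutative `ℚ`-algebra and a function `Z` from the indices to the algebra with
the stuffle product and with Euler's formula `Z(2 m) = - B_{2m} y ^ (2 m) / (2 (2 m)!)`. For an associator `(μ, Φ)` the
element `y = μ` and the coefficients `Z(u_1, ..., u_r)` of the words `A ^ (u_1 - 1) B ... A ^ (u_r - 1) B` in `Φ` (up to
sign) are a family, by the theorem of Furusho that associators satisfy the double shuffle relations; for the KZ associator
it is `2 π i` and the multiple zeta values. In particular the universal associator gives a family in `ℚ[M]`. The tuple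
`s` is bad for `(y, Z)` (and `D`, `H`) if a polynomial relation of degree at most `D` with integer coefficients at most
`H` between `2 π i` and the multiple zeta values of the patterns at `s` fails for `(y, Z)`. For the universal
associator this means that the polynomial is in the kernel of `φ_KZ` and not in `I`.

Theorem. Let `w_1, ..., w_r` be admissible patterns in `k` variables, and let `D`, `κ` be natural numbers.

(1) If all constant first letters of the patterns are equal and even, in each pattern, such as in `ζ(2, 2, 2, s_1, 3)` and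
`ζ(4, 4)`, there is `K` such that for all `C` and all large `N` at most `K N ^ (k - 1)` of the tuples
`s ∈ [N, κ N] ^ k` are bad, for `D` and `H = C ^ N`, for one of the families. This is unconditional.

(2) For arbitrary constant first letters the same holds for the families for which all the polynomial relations between
`2 π i` and the multiple zeta values of the (finitely many) fronts hold.

(3) Conversely the condition on the fronts in (2) is necessary. Let `(y, Z)` be a family in a domain, with `Z(s) ≠ 0` for all large odd `s` (for example the universal associator).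
Then the following are equivalent: (a) all polynomial relations between `2 π i` and the multiple zeta values hold for
`(y, Z)` (for the universal associator: `φ_KZ` is injective); (b) for all admissible patterns `w_1, ..., w_r`, `D`, `κ`
there is `K` such that for all `C` and all large `N` at most `K N ^ (k - 1)` tuples are bad for `(y, Z)`; (c) for all
patterns in one variable with exactly one nonconstant letter `s + b`, and for each `B`, there are arbitrarily large odd
`s` for which all LINEAR relations with integer coefficients at most `B` between the multiple zeta values of the patterns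
at `s` hold for `Z`.

The proof of (2) is the unused theorem `gen2` of `Pool.Agent.X90.DC` (starting library). For (1) the relations between the
fronts are found with Newton's identities in the stuffle algebra and the transcendence of `π`. For (c) ⇒ (a) a relation
is linearised with the stuffle product and multiplied by `ζ(s)`, and `2 π i` is eliminated by `(2 π i)² = -24 ζ(2)`.
-/

set_option autoImplicit false

namespace Pool.Agent.Results.MP_807c24_nt.AlmostAllCoefficients

/-- `trunc [s_1, ..., s_r] m` is the sum of `∏ n_i ^ (-s_i)` over `m > n_1 > ... > n_r ≥ 1` -/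
noncomputable def trunc : List ℕ → ℕ → ℝ
  | [], _ => 1
  | s :: l, m => ∑ j ∈ Finset.Ico 1 m, trunc l j / (j : ℝ) ^ s

/-- the multiple zeta value `ζ(s_1, ..., s_r)`, `s_1` belongs to the largest variable -/
noncomputable def mzv : List ℕ → ℝ
  | [] => 1
  | s :: l => ∑' m : ℕ, trunc l (m + 1) / ((m + 1 : ℕ) : ℝ) ^ s

/-- admissible indices: `(s_1, ..., s_r)`, `r ≥ 1`, with `s_1 ≥ 2` and all `s_i ≥ 1` -/
def Admissible : List ℕ → Prop
  | [] => False
  | s :: l => 2 ≤ s ∧ ∀ t ∈ l, 1 ≤ t

/-- the list of the indices in the stuffle (series) product of two indices -/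
def stuffles : List ℕ → List ℕ → List (List ℕ)
  | [], v => [v]
  | x :: u, [] => [x :: u]
  | x :: u, y :: v =>
    (stuffles u (y :: v)).map (x :: ·) ++ (stuffles (x :: u) v).map (y :: ·) ++
      (stuffles u v).map ((x + y) :: ·)
termination_by k l => k.length + l.length

/-- the letter `(b, u)` stands for `b + ∑ u_j s_j` -/
abbrev Letter (k : ℕ) : Type := ℕ × (Fin k → ℕ)

/-- the index given by a pattern at the tuple `s` -/
def index {k : ℕ} (s : Fin k → ℕ) (w : List (Letter k)) : List ℕ :=
  w.map fun u => u.1 + ∑ j, u.2 j * s j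

/-- nonempty patterns whose constant letters are positive, and whose first letter is at least two if it is constant -/
def AdmissiblePattern {k : ℕ} (w : List (Letter k)) : Prop :=
  w ≠ [] ∧ (∀ u ∈ w.head?, u.2 ≠ 0 ∨ 2 ≤ u.1) ∧ ∀ u ∈ w, u.2 ≠ 0 ∨ 1 ≤ u.1

open Classical in
/-- the constant letters in front of the first letter which is not constant -/
def constantPart {k : ℕ} : List (Letter k) → List ℕ
  | [] => []
  | u :: w => if u.2 = 0 then u.1 :: constantPart w else []

/-- the fronts of the patterns: the nonempty initial segments of the constant parts -/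
def fronts {k r : ℕ} (w : Fin r → List (Letter k)) : Set (List ℕ) :=
  {q | q ≠ [] ∧ ∃ i, q <+: constantPart (w i)}

/-- the constant letters in front are equal and even: `2a, ..., 2a` (none is allowed) -/
def EvenFront {k : ℕ} (w : List (Letter k)) : Prop :=
  ∃ n a : ℕ, constantPart w = List.replicate n (2 * a)

/-- exactly one letter is not constant, and this letter is `s + b` -/
def OneLarge (w : List (Letter 1)) : Prop :=
  ∃ (p : List ℕ) (b : ℕ) (q : List ℕ), w = p.map (fun a => (a, 0)) ++ (b, 1) :: q.map (fun a => (a, 0))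

/-- `2 π i` -/
noncomputable def mu : ℂ := 2 * Real.pi * Complex.I

/-- families: the stuffle product, and Euler's formula `Z(2 m) = - B_{2m} y ^ (2 m) / (2 (2 m)!)` -/
structure IsFamily {A : Type} [CommRing A] [Algebra ℚ A] (y : A) (Z : List ℕ → A) : Prop where
  stuffle : ∀ u v, Admissible u → Admissible v → Z u * Z v = ((stuffles u v).map Z).sum
  euler : ∀ m, 1 ≤ m → Z [2 * m] =
    algebraMap ℚ A (- bernoulli (2 * m) / (2 * (2 * m).factorial)) * y ^ (2 * m)

/-- every polynomial relation with rational coefficients between `2 π i` and the multiple zeta values of the admissible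
indices in `S` holds for `y` and `Z`; the first variable stands for `2 π i` and `y` -/
def Transfers {A : Type} [CommRing A] [Algebra ℚ A] (S : Set (List ℕ)) (y : A) (Z : List ℕ → A) : Prop :=
  ∀ f : MvPolynomial (Fin 1 ⊕ {u : List ℕ // Admissible u ∧ u ∈ S}) ℚ,
    MvPolynomial.aeval (Sum.elim (fun _ => mu) fun u => ((mzv u.1 : ℝ) : ℂ)) f = 0 →
      MvPolynomial.aeval (Sum.elim (fun _ => y) fun u => Z u.1) f = 0

/-- a polynomial relation of degree at most `D` with integer coefficients of absolute value at most `H` between `2 π i`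
and the multiple zeta values of the patterns at `s` fails for `y` and `Z` -/
def Bad {k r : ℕ} (w : Fin r → List (Letter k)) (D : ℕ) (H : ℝ) {A : Type} [CommRing A] (y : A)
    (Z : List ℕ → A) (s : Fin k → ℕ) : Prop :=
  ∃ P : MvPolynomial (Fin 1 ⊕ Fin r) ℤ, P.totalDegree ≤ D ∧ (∀ m, |((P.coeff m : ℤ) : ℝ)| ≤ H) ∧
    MvPolynomial.aeval (Sum.elim (fun _ => mu) fun i => ((mzv (index s (w i)) : ℝ) : ℂ)) P = 0 ∧
    MvPolynomial.aeval (Sum.elim (fun _ => y) fun i => Z (index s (w i))) P ≠ 0

/-- the tuple `s` is bad for one of the families `(y, Z)` with the property `F` -/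
def BadFor {k r : ℕ} (w : Fin r → List (Letter k)) (D : ℕ)
    (F : ∀ (A : Type) [CommRing A] [Algebra ℚ A], A → (List ℕ → A) → Prop) (H : ℝ) (s : Fin k → ℕ) : Prop :=
  ∃ (A : Type) (_ : CommRing A) (_ : Algebra ℚ A) (y : A) (Z : List ℕ → A),
    IsFamily y Z ∧ F A y Z ∧ Bad w D H y Z s

/-- there is `K` such that for all `C` and all sufficiently large `N` at most `K N ^ (k - 1)` of the tuples
`s ∈ [N, κ N] ^ k` have the property `E (C ^ N)` -/
def Few {k : ℕ} (κ : ℕ) (E : ℝ → (Fin k → ℕ) → Prop) : Prop :=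
  ∃ K : ℕ, ∀ C : ℝ, ∃ N₀ : ℕ, ∀ N : ℕ, N₀ ≤ N →
    {s : Fin k → ℕ | (∀ j, N ≤ s j ∧ s j ≤ κ * N) ∧ E (C ^ N) s}.ncard ≤ K * N ^ (k - 1)

/-- statement (b) -/
def AlmostAll {A : Type} [CommRing A] (y : A) (Z : List ℕ → A) : Prop :=
  ∀ (k r : ℕ) (w : Fin r → List (Letter k)), (∀ i, AdmissiblePattern (w i)) → ∀ D κ : ℕ,
    Few κ fun H s => Bad w D H y Z s

/-- statement (c) -/
def OneLargeArgument {A : Type} [CommRing A] (Z : List ℕ → A) : Prop :=
  ∀ (r : ℕ) (w : Fin r → List (Letter 1)), (∀ i, AdmissiblePattern (w i) ∧ OneLarge (w i)) → ∀ B s₁ : ℕ,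
    ∃ s, s₁ ≤ s ∧ Odd s ∧ ∀ a : Fin r → ℤ, (∀ i, |a i| ≤ B) →
      ∑ i, (a i : ℝ) * mzv (index (fun _ => s) (w i)) = 0 →
      ∑ i, (a i : A) * Z (index (fun _ => s) (w i)) = 0

open Pool.Agent.X90.DC (fpx)
open Pool.Agent.X90.DB (Ad ix ex)
open Pool.Agent.N734.MZ (St tpi)

theorem mu_eq : mu = tpi := rfl

theorem trunc_eq : ∀ l m, trunc l m = Pool.Agent.Y760.ZG.hr l m := by
  intro l
  induction l with
  | nil => intro m; rw [trunc, Pool.Agent.Y760.ZG.hr]
  | cons s l ih =>
    intro m
    rw [trunc, Pool.Agent.Y760.ZG.hr]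
    exact Finset.sum_congr rfl fun j _ => by rw [ih]

theorem mzv_eq : ∀ l, mzv l = Pool.Agent.Y760.ZG.mz l := by
  intro l
  cases l with
  | nil => rw [mzv, Pool.Agent.Y760.ZG.mz]
  | cons s l =>
    rw [mzv, Pool.Agent.Y760.ZG.mz]
    exact tsum_congr fun k => by rw [trunc_eq]

theorem mzv_fun : mzv = Pool.Agent.Y760.ZG.mz := funext mzv_eq

theorem stuffles_eq : ∀ u v, stuffles u v = Pool.Agent.Y760.ZF.sti u v := by
  intro u v
  induction u, v using Pool.Agent.Y760.ZF.sti.induct with
  | case1 v => rw [stuffles, Pool.Agent.Y760.ZF.sti]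
  | case2 x u => rw [stuffles, Pool.Agent.Y760.ZF.sti]
  | case3 x u y v ih1 ih2 ih3 => rw [stuffles, Pool.Agent.Y760.ZF.sti, ih1, ih2, ih3]

theorem adm_iff : ∀ u, Admissible u ↔ Ad u := by
  intro u
  cases u with
  | nil => exact Iff.rfl
  | cons a l => exact Iff.rfl

theorem constantPart_eq {k : ℕ} : ∀ w : List (Letter k), constantPart w = fpx w := by
  intro w
  induction w with
  | nil => rw [constantPart, fpx]
  | cons u w ih =>
    rw [constantPart, fpx, ih]

theorem st_of {A : Type} [CommRing A] [Algebra ℚ A] {y : A} {Z : List ℕ → A} (h : IsFamily y Z) : St Z := by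
  intro u v hu hv
  rw [h.stuffle u v ((adm_iff u).2 hu) ((adm_iff v).2 hv), stuffles_eq]

theorem index_ne {k : ℕ} (s : Fin k → ℕ) {w : List (Letter k)} (hw : w ≠ []) : index s w ≠ [] := by
  rw [index]
  intro h
  exact hw (List.map_eq_nil_iff.1 h)

theorem Few.mono {k κ : ℕ} {E E' : ℝ → (Fin k → ℕ) → Prop} (h : Few κ E) (hE : ∀ H s, E' H s → E H s) :
    Few κ E' := by
  obtain ⟨K, hK⟩ := h
  refine ⟨K, fun C => ?_⟩
  obtain ⟨N₀, hN⟩ := hK C
  refine ⟨N₀, fun N hN' => (Set.ncard_le_ncard ?_ ?_).trans (hN N hN')⟩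
  · rintro s ⟨h1, h2⟩
    exact ⟨h1, hE _ _ h2⟩
  · refine (Set.Finite.pi' (t := fun _ : Fin k => Set.Icc N (κ * N)) fun _ => Set.finite_Icc _ _).subset ?_
    intro s hs j
    exact ⟨(hs.1 j).1, (hs.1 j).2⟩

/-- the relations between the fronts, for integer coefficients -/
theorem rel_of {k r : ℕ} (w : Fin r → List (Letter k)) {A : Type} [CommRing A] [Algebra ℚ A] (y : A)
    (Z : List ℕ → A) (h : Transfers (fronts w) y Z) :
    Pool.Agent.X90.DC.Rel2 (fronts w) (fun _ : Fin 1 => mu) (fun _ : Fin 1 => y) Z := by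
  intro Q hQ
  set T : Type := {u : List ℕ // Admissible u ∧ u ∈ fronts w} with hT
  let ρ : Fin 1 ⊕ {p : List ℕ // Ad p ∧ p ∈ fronts w} → Fin 1 ⊕ T :=
    Sum.map id fun p => ⟨p.1, (adm_iff p.1).2 p.2.1, p.2.2⟩
  have h1 : ∀ (B : Type) [CommRing B] [Algebra ℚ B] (x : B) (Z : List ℕ → B),
      MvPolynomial.aeval (Sum.elim (fun _ => x) fun u : T => Z u.1)
        (MvPolynomial.map (algebraMap ℤ ℚ) (MvPolynomial.rename ρ Q)) =
      MvPolynomial.aeval (Sum.elim (fun _ => x) fun p => Z p.1) Q := by
    intro B _ _ x Z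
    rw [MvPolynomial.aeval_map_algebraMap, MvPolynomial.aeval_rename]
    congr 2
    funext i
    rcases i with i | i
    · rfl
    · rfl
  have h2 := h (MvPolynomial.map (algebraMap ℤ ℚ) (MvPolynomial.rename ρ Q)) (by
    rw [mzv_fun, h1 ℂ mu fun u => ((Pool.Agent.Y760.ZG.mz u : ℝ) : ℂ)]
    exact hQ)
  rw [h1 A y Z] at h2
  exact h2

/-- part (2) -/
theorem part2 {k r : ℕ} (w : Fin r → List (Letter k)) (hw : ∀ i, AdmissiblePattern (w i)) (D κ : ℕ) :
    Few κ (BadFor w D fun _ _ _ y Z => Transfers (fronts w) y Z) := by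
  classical
  obtain ⟨K, hK⟩ := Pool.Agent.X90.DC.gen2 1 k r D w (fun i => (hw i).2) (fronts w)
    (fun i q hq hne => ⟨hne, i, by rw [constantPart_eq]; exact hq⟩) κ
  refine ⟨K, fun C => ?_⟩
  obtain ⟨N₀, hN₀⟩ := hK C (fun _ => mu)
  refine ⟨N₀, fun N hN => ?_⟩
  have hfin : {s : Fin k → ℕ | (∀ j, N ≤ s j ∧ s j ≤ κ * N) ∧
      BadFor w D (fun _ _ _ y Z => Transfers (fronts w) y Z) (C ^ N) s}.Finite := by
    refine (Set.Finite.pi' (t := fun _ : Fin k => Set.Icc N (κ * N)) fun _ => Set.finite_Icc _ _).subset ?_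
    intro s hs j
    exact ⟨(hs.1 j).1, (hs.1 j).2⟩
  rw [Set.ncard_eq_toFinset_card _ hfin]
  refine hN₀ N hN _ fun s hs => ?_
  rw [Set.Finite.mem_toFinset] at hs
  obtain ⟨h1, A, i1, i2, y, Z, hZ, hF, P, h2, h3, h4, h5⟩ := hs
  refine ⟨h1, P, h2, h3, ?_, fun h => h5 ?_⟩
  · rw [← h4, mzv_fun]
    rfl
  · have h8 := h A (fun _ => y) Z (rel_of w y Z hF) (st_of hZ)
    have h9 : ∀ i, ex Z (ix s (w i)) = Z (index s (w i)) :=
      fun i => Pool.Agent.X90.DB.ex_ne Z (index_ne s (hw i).1)
    simp only [h9] at h8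
    exact h8

/-- the fronts of a pattern with an even front -/
theorem fronts_even {k r : ℕ} (w : Fin r → List (Letter k)) (hw : ∀ i, EvenFront (w i))
    (u : {u : List ℕ // Admissible u ∧ u ∈ fronts w}) :
    ∃ n a, 1 ≤ n ∧ 1 ≤ a ∧ u.1 = List.replicate n (2 * a) := by
  obtain ⟨u, hu, hne, i, hi⟩ := u
  obtain ⟨n, a, hc⟩ := hw i
  rw [hc, List.prefix_replicate_iff] at hi
  refine ⟨u.length, a, ?_, ?_, hi.2⟩
  · exact List.length_pos_iff.2 hne
  · by_contra ha
    have ha0 : a = 0 := by omega
    cases u with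
    | nil => exact hne rfl
    | cons b l =>
      have h1 : 2 ≤ b := hu.1
      have h2 := hi.2
      rw [List.length_cons, List.replicate_succ, List.cons.injEq] at h2
      omega

/-- part (1) -/
theorem part1 {k r : ℕ} (w : Fin r → List (Letter k)) (hw : ∀ i, AdmissiblePattern (w i))
    (he : ∀ i, EvenFront (w i)) (D κ : ℕ) :
    Few κ (BadFor w D fun _ _ _ _ _ => True) := by
  refine (part2 w hw D κ).mono fun H s => ?_
  rintro ⟨A, i1, i2, y, Z, hZ, -, hB⟩
  refine ⟨A, i1, i2, y, Z, hZ, ?_, hB⟩
  intro f hf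
  rw [mzv_fun] at hf
  exact Pool.Agent.N734.MZ.even_transfer_mu (fun u : {u : List ℕ // Admissible u ∧ u ∈ fronts w} => u.1)
    (fronts_even w he) y Z (st_of hZ) hZ.euler f hf

theorem a_to_b {A : Type} [CommRing A] [Algebra ℚ A] (y : A) (Z : List ℕ → A) (hZ : IsFamily y Z)
    (h : Transfers Set.univ y Z) : AlmostAll y Z := by
  intro k r w hw D κ
  refine (part2 w hw D κ).mono fun H s hB => ?_
  refine ⟨A, inferInstance, inferInstance, y, Z, hZ, ?_, hB⟩
  intro f hf
  let ρ : Fin 1 ⊕ {u : List ℕ // Admissible u ∧ u ∈ fronts w} →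
      Fin 1 ⊕ {u : List ℕ // Admissible u ∧ u ∈ (Set.univ : Set (List ℕ))} :=
    Sum.map id fun u => ⟨u.1, u.2.1, trivial⟩
  have h0 : ∀ (B : Type) [CommRing B] [Algebra ℚ B] (x : B) (Y : List ℕ → B),
      MvPolynomial.aeval (Sum.elim (fun _ => x) fun u => Y u.1) (MvPolynomial.rename ρ f) =
      MvPolynomial.aeval (Sum.elim (fun _ => x) fun u => Y u.1) f := by
    intro B _ _ x Y
    rw [MvPolynomial.aeval_rename]
    congr 2
    funext i
    rcases i with i | i
    · rfl
    · rfl
  have h1 := h (MvPolynomial.rename ρ f) (by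
    rw [h0 ℂ mu fun u => ((mzv u : ℝ) : ℂ)]
    exact hf)
  rw [h0 A y Z] at h1
  exact h1

theorem b_to_c {A : Type} [CommRing A] (y : A) (Z : List ℕ → A) (h : AlmostAll y Z) : OneLargeArgument Z := by
  classical
  intro r w hw B s₁
  by_contra hcon
  push Not at hcon
  obtain ⟨K, hK⟩ := h 1 r w (fun i => (hw i).1) 1 4
  obtain ⟨N₀, hN⟩ := hK (B + 1 : ℝ)
  set N := N₀ + s₁ + K + 2 with hNdef
  have h1 : {s : Fin 1 → ℕ | (∀ j, N ≤ s j ∧ s j ≤ 4 * N) ∧ Bad w 1 ((B + 1 : ℝ) ^ N) y Z s}.ncard ≤
      K * N ^ (1 - 1) := hN N (by omega)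
  rw [Nat.sub_self, pow_zero, mul_one] at h1
  let φ : ℕ → Fin 1 → ℕ := fun i _ => 2 * (N + i) + 1
  have hφ : Function.Injective φ := by
    intro i j hij
    have := congrFun hij 0
    simp only [φ] at this
    omega
  have h2 : φ '' ((Finset.range (K + 1) : Finset ℕ) : Set ℕ) ⊆
      {s : Fin 1 → ℕ | (∀ j, N ≤ s j ∧ s j ≤ 4 * N) ∧ Bad w 1 ((B + 1 : ℝ) ^ N) y Z s} := by
    rintro s ⟨i', hi, rfl⟩
    rw [Finset.mem_coe, Finset.mem_range] at hi
    refine ⟨fun j => ⟨by simp only [φ]; omega, by simp only [φ]; omega⟩, ?_⟩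
    obtain ⟨a, ha, hR, hA⟩ := hcon (2 * (N + i') + 1) (by omega) ⟨N + i', rfl⟩
    refine ⟨∑ i, MvPolynomial.C (a i) * MvPolynomial.X (Sum.inr i), ?_, fun m => ?_, ?_, ?_⟩
    · refine MvPolynomial.totalDegree_finsetSum_le fun i _ => ?_
      refine (MvPolynomial.totalDegree_mul _ _).trans ?_
      rw [MvPolynomial.totalDegree_C, zero_add]
      exact (MvPolynomial.totalDegree_X _).le
    · rw [MvPolynomial.coeff_sum]
      simp only [MvPolynomial.coeff_C_mul, MvPolynomial.coeff_X]
      have hB1 : (B : ℝ) ≤ (B + 1 : ℝ) ^ N := by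
        have h3 : (B + 1 : ℝ) ^ 1 ≤ (B + 1 : ℝ) ^ N :=
          pow_le_pow_right₀ (by have := Nat.cast_nonneg (α := ℝ) B; linarith) (by omega)
        rw [pow_one] at h3
        linarith
      refine le_trans ?_ hB1
      by_cases hm : ∃ i : Fin r, Finsupp.single (Sum.inr i : Fin 1 ⊕ Fin r) 1 = m
      · obtain ⟨i₀, rfl⟩ := hm
        have h4 : ∑ x, a x * (if Finsupp.single (Sum.inr x : Fin 1 ⊕ Fin r) 1 =
            Finsupp.single (Sum.inr i₀) 1 then (1 : ℤ) else 0) = a i₀ := by
          rw [Finset.sum_eq_single i₀]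
          · rw [if_pos rfl, mul_one]
          · intro x _ hx
            rw [if_neg, mul_zero]
            intro h5
            exact hx (Sum.inr_injective ((Finsupp.single_left_inj one_ne_zero).1 h5))
          · intro h5
            exact absurd (Finset.mem_univ _) h5
        rw [h4]
        exact_mod_cast ha i₀
      · have h4 : ∑ x, a x * (if Finsupp.single (Sum.inr x : Fin 1 ⊕ Fin r) 1 = m then (1 : ℤ) else 0) = 0 := by
          refine Finset.sum_eq_zero fun x _ => ?_
          rw [if_neg fun h5 => hm ⟨x, h5⟩, mul_zero]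
        rw [h4, Int.cast_zero, abs_zero]
        exact Nat.cast_nonneg _
    · rw [map_sum]
      have h6 : ∑ i, ((((a i : ℝ) * mzv (index (fun _ => 2 * (N + i') + 1) (w i)) : ℝ)) : ℂ) = 0 := by
        rw [← Complex.ofReal_sum, hR, Complex.ofReal_zero]
      refine Eq.trans (Finset.sum_congr rfl fun i _ => ?_) h6
      rw [map_mul, MvPolynomial.aeval_C, MvPolynomial.aeval_X, Sum.elim_inr, Complex.ofReal_mul]
      rfl
    · rw [map_sum]
      intro h5
      refine hA (Eq.trans (Finset.sum_congr rfl fun i _ => ?_) h5)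
      rw [map_mul, MvPolynomial.aeval_C, MvPolynomial.aeval_X, Sum.elim_inr]
      rfl
  have hfin : {s : Fin 1 → ℕ | (∀ j, N ≤ s j ∧ s j ≤ 4 * N) ∧ Bad w 1 ((B + 1 : ℝ) ^ N) y Z s}.Finite := by
    refine (Set.Finite.pi' (t := fun _ : Fin 1 => Set.Icc N (4 * N)) fun _ => Set.finite_Icc _ _).subset ?_
    intro s hs j
    exact ⟨(hs.1 j).1, (hs.1 j).2⟩
  have h3 := Set.ncard_le_ncard h2 hfin
  rw [Set.ncard_image_of_injective _ hφ, Set.ncard_coe_finset, Finset.card_range] at h3
  omega

theorem c_to_a {A : Type} [CommRing A] [IsDomain A] [Algebra ℚ A] (y : A) (Z : List ℕ → A) (hZ : IsFamily y Z)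
    (s₀ : ℕ) (hne : ∀ s, s₀ ≤ s → Odd s → Z [s] ≠ 0) (h : OneLargeArgument Z) : Transfers Set.univ y Z := by
  intro f hf
  rw [mzv_fun] at hf
  have hy : y ^ 2 = -24 * Z [2] := by
    have h1 := hZ.euler 1 le_rfl
    rw [show 2 * 1 = 2 from rfl] at h1
    have h2 : (- bernoulli 2 / (2 * (Nat.factorial 2 : ℚ)) : ℚ) = -1 / 24 := by
      rw [bernoulli_two]
      norm_num [Nat.factorial]
    rw [h2] at h1
    rw [h1]
    have h3 : (-24 : A) = algebraMap ℚ A (-24) := by
      rw [map_neg]
      congr 1
      exact (map_ofNat (algebraMap ℚ A) 24).symm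
    rw [h3, ← mul_assoc, ← map_mul]
    norm_num
  refine Pool.Agent.N734.MZ.mu_of
    (fun u : {u : List ℕ // Admissible u ∧ u ∈ (Set.univ : Set (List ℕ))} => u.1)
    ⟨[2], ⟨le_rfl, by simp⟩, trivial⟩ rfl y Z hy ?_ f hf
  intro f hf
  refine Pool.Agent.N734.MZ.back (fun u : {u : List ℕ // Admissible u ∧ u ∈ (Set.univ : Set (List ℕ))} => u.1)
    (fun u => (adm_iff u.1).1 u.2.1) A Z (st_of hZ) s₀ hne ?_ f hf
  intro r w hw B s₁
  have hw' : ∀ i, AdmissiblePattern (w i) ∧ OneLarge (w i) := by
    intro i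
    refine ⟨⟨?_, (hw i).1⟩, (hw i).2⟩
    obtain ⟨p, b, q, h4⟩ := (hw i).2
    rw [h4]
    simp
  obtain ⟨s, h1, h2, h3⟩ := h r w hw' B s₁
  refine ⟨s, h1, h2, fun a ha h4 => h3 a ha ?_⟩
  rw [mzv_fun]
  exact h4

/-- **Theorem.** (1) For admissible patterns `w_1, ..., w_r` in `k` variables with even fronts and for `D`, `κ` there is
`K` such that for all `C` and all large `N` at most `K N ^ (k - 1)` tuples `s ∈ [N, κ N] ^ k` are bad, for the degree `D`
and the height `C ^ N`, for one of the families. (2) For arbitrary admissible patterns the same holds for the families for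
which the relations between `2 π i` and the multiple zeta values of the fronts hold. (3) For a family `(y, Z)` in a domain,
with `Z(s) ≠ 0` for all large odd `s`, the following are equivalent: all polynomial relations between `2 π i` and the
multiple zeta values hold for `(y, Z)`; for all patterns, `D`, `κ` there is `K` such that for all `C` and all large `N` at
most `K N ^ (k - 1)` tuples are bad for `(y, Z)`; for all patterns with exactly one nonconstant letter `s + b` and all `B`
there are arbitrarily large odd `s` for which all linear relations with integer coefficients at most `B` between the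
multiple zeta values of the patterns at `s` hold for `Z`. -/
theorem result :
    (∀ (k r : ℕ) (w : Fin r → List (Letter k)), (∀ i, AdmissiblePattern (w i)) → (∀ i, EvenFront (w i)) →
      ∀ D κ : ℕ, Few κ (BadFor w D fun _ _ _ _ _ => True)) ∧
    (∀ (k r : ℕ) (w : Fin r → List (Letter k)), (∀ i, AdmissiblePattern (w i)) → ∀ D κ : ℕ,
      Few κ (BadFor w D fun _ _ _ y Z => Transfers (fronts w) y Z)) ∧
    ∀ (A : Type) [CommRing A] [IsDomain A] [Algebra ℚ A] (y : A) (Z : List ℕ → A), IsFamily y Z →
      (∃ s₀, ∀ s, s₀ ≤ s → Odd s → Z [s] ≠ 0) →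
      (Transfers Set.univ y Z ↔ AlmostAll y Z) ∧ (AlmostAll y Z ↔ OneLargeArgument Z) := by
  refine ⟨fun k r w hw he D κ => part1 w hw he D κ, fun k r w hw D κ => part2 w hw D κ, ?_⟩
  intro A _ _ _ y Z hZ hs
  obtain ⟨s₀, hne⟩ := hs
  exact ⟨⟨a_to_b y Z hZ, fun h => c_to_a y Z hZ s₀ hne (b_to_c y Z h)⟩,
    ⟨b_to_c y Z, fun h => a_to_b y Z hZ (c_to_a y Z hZ s₀ hne h)⟩⟩

end Pool.Agent.Results.MP_807c24_nt.AlmostAllCoefficients
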