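import Mathlib
import Pool.Agent.N778.MZ.Exb

set_option autoImplicit false

/-!
# Few exceptions over the field of the coefficients of the KZ associator

For a sequence `w = (k_1, …, k_r)` of positive integers with `k_1 ≥ 2` the coefficient of the word
`A^{k_1 - 1} B … A^{k_r - 1} B` in the KZ associator `Φ_KZ` is `c(w) = (-1)^r ζ(w)`, where `ζ(w)` is the multiple zeta value,
the sum of `1/(m_1^{k_1} … m_r^{k_r})` over `m_1 > … > m_r ≥ 1`. These coefficients and `(2 π i)^{±1}` generate the image of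
`φ_KZ`. We replace the sum by its tails `m_1 > j` and take their Poisson mean: let
`D_w(x) = (-1)^r exp (-x) * ∑_j x^j/j! * (the sum over m_1 > j)`. So `D_w(0) = c(w)`, and `D_w(x) → 0` for real `x → ∞`.

We order the positive integers such that `1` is the largest letter, `2` is the second one and so on. A sequence is a
Lyndon word if it has length one or is a product `u v` of Lyndon words `u < v` (for the lexicographic order). In this file a
word is a Lyndon word different from `(1)`; all of them have `k_1 ≥ 2`. By a theorem of Hoffman the coefficients `c(w)`, `w` a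
word, generate the algebra of the multiple zeta values.

For complex numbers `a_1, …, a_n` with `a_n ≠ 0` let `I(a_1, …, a_n)` be the iterated integral of the forms
`ω_{a_1}(t_1), …, ω_{a_n}(t_n)` over `1 > t_1 > … > t_n > 0`, where `ω_0 = dt / t` and `ω_a = (exp (a t) - 1) dt / t` for
`a ≠ 0`. Let `𝓚` be the field which is generated by all algebraic numbers, all numbers `exp b`, `b` algebraic, and
all numbers `I(a_1, …, a_n)` with algebraic `a_1, …, a_n`, no two nonzero ones of which have sum zero. Let `X` be a set of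
algebraic numbers `x` such that `x + y ≠ 0` for all `x, y` in `X` (for example the set of the positive algebraic numbers).

Let `W` be a set of words.

(1) Let `y_1, …, y_r` be complex numbers such that the coefficients `c(w)`, `w` in `W`, are algebraic over
`𝓚(y_1, …, y_r)`. Then all the numbers `D_w(x)`, `w` in `W` and `x` in `X`, except for at most `r` of them, are algebraically
independent over `𝓚(y_1, …, y_r)`.

For example let `W` be the set of all words of weight at most `k` and let `y_1, …, y_r` be a transcendence basis over `𝓚` of the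
field which is generated by `2 π i` and all coefficients of `Φ_KZ` of degree at most `k`. These are values of `φ_KZ` on a
subalgebra of `ℚ[M]` with `1 + dim (grt_1)_{≤ k}` algebraically independent generators (Drinfeld), so `r` is at
most this number. There are at most `r` exceptions, and the other numbers, infinitely many if `X` is infinite, are
algebraically independent even over the field which is generated by `𝓚`, by `2 π i` and by all these coefficients.

(2) More generally let the words be divided into blocks, let `y_{b, j}`, `j < r_b`, be numbers such that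
`c(w)` is algebraic over `𝓚(y_{b, j} : j < r_b)` for the words `w` in `W` of the block `b`. One can leave out at most `r_b` of the
numbers `y_{b, j}`, `D_w(x)` of every block `b` (`j < r_b`, `w` in `W` in the block `b`, `x` in `X`) such that all the remaining
numbers, of all blocks together, are algebraically independent over `𝓚`. For example the blocks can be the weights: there are
finite numbers `r_k` (at most `1 + dim (grt_1)_{≤ k}`) such that, for all weights simultaneously, all `D_w(x)` but at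
most `r_k` ones of weight `k` are algebraically independent over `𝓚`.

(3) In (1) the numbers `D_w(x)`, `w` in `W`, are algebraically independent over `𝓚(y_1, …, y_r)` for all points `x` in `X`,
except for at most `r` points. Of course `x = 0`, where `D_w(0) = c(w)`, is exceptional in this sense.

So the relations which are defined by the associator equations, and all other algebraic relations, disappear
if the coefficients of `Φ_KZ` are damped in this way, with explicitly few exceptions, even if the coefficients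
themselves are adjoined to the base field.

Proof. The numbers `c(w) - D_w(x)` are up to the sign the Poisson means `S_w(x)` of the truncated sums, which are
algebraically independent over `𝓚` (my result on the page MP_f3dc73_nt). If one adds a parameter `y` to the field then, by the
exchange property of algebraic dependence, at most one further element of an algebraically independent family has to be left
out; over the field with all the parameters `S_w(x)` and `D_w(x)` are equivalent. For (2) one treats the blocks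
one after the other, in every block one chooses a maximal independent part of the parameters first.
-/

namespace Pool.Agent.Results.MP_807c24_nt.FewExceptions

open Filter Topology Set

/-- the truncated multiple zeta value: `H_j(k_1, …, k_r)` is the sum over `j ≥ m_1 > … > m_r ≥ 1` -/
noncomputable def H : List ℕ → ℕ → ℂ
  | [], _ => 1
  | k :: w, j => ∑ i ∈ Finset.range j, H w i / ((i : ℂ) + 1) ^ k

/-- the multiple zeta value (here `m_1 = i + 1`) -/
noncomputable def zeta : List ℕ → ℂ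
  | [] => 1
  | k :: w => ∑' i : ℕ, H w i / ((i : ℂ) + 1) ^ k

/-- the tail: the sum over `m_1 > j` (here `m_1 = i + j + 1`) -/
noncomputable def tail : List ℕ → ℕ → ℂ
  | [], _ => 0
  | k :: w, j => ∑' i : ℕ, H w (i + j) / ((i : ℂ) + j + 1) ^ k

/-- `T_w(x)` -/
noncomputable def T (w : List ℕ) (x : ℂ) : ℂ := Complex.exp (-x) * ∑' j : ℕ, x ^ j / j.factorial * tail w j

/-- Lyndon words: the letters, and `u v` for Lyndon words `u < v` (lexicographic order for the order of the letters in which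
`k` is before `l` if `k > l`) -/
inductive Lyndon : List ℕ → Prop
  | letter (a : ℕ) : Lyndon [a]
  | mul (u v : List ℕ) : Lyndon u → Lyndon v → u.map (fun k : ℕ => -(k : ℤ)) < v.map (fun k : ℕ => -(k : ℤ)) → Lyndon (u ++ v)

/-- Lyndon words in positive integers, different from `(1)` -/
def Word (w : List ℕ) : Prop := Lyndon w ∧ (∀ k ∈ w, 1 ≤ k) ∧ w ≠ [1]

/-- the iterated integral of `ω_{a_1}(t_1), …, ω_{a_n}(t_n)` over `t > t_1 > … > t_n > 0` -/
noncomputable def iterated : List ℂ → ℝ → ℂ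
  | [], _ => 1
  | a :: v, t => ∫ s in (0 : ℝ)..t, (if a = 0 then 1 else Complex.exp (a * s) - 1) * iterated v s / s

/-- `I(a_1, …, a_n)` -/
noncomputable def I (w : List ℂ) : ℂ := iterated w 1

/-- the entries are algebraic, the last one is not zero, no two nonzero entries have sum zero -/
def Admissible (w : List ℂ) : Prop :=
  (∀ a ∈ w, IsAlgebraic ℚ a) ∧ (∀ h : w ≠ [], w.getLast h ≠ 0) ∧ ∀ a ∈ w, a ≠ 0 → -a ∉ w

/-- the field `𝓚` -/
noncomputable def baseField : IntermediateField ℚ ℂ := IntermediateField.adjoin ℚ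
  ({z | IsAlgebraic ℚ z} ∪ {z | ∃ b : ℂ, IsAlgebraic ℚ b ∧ z = Complex.exp b} ∪
    {z | ∃ w : List ℂ, Admissible w ∧ z = I w})

/-- the condition on the set `X` -/
def Points (X : Set ℂ) : Prop := ∀ x ∈ X, IsAlgebraic ℚ x ∧ ∀ y ∈ X, x + y ≠ 0

/-- the field `𝓚(Y)` -/
noncomputable def fieldWith (Y : Set ℂ) : IntermediateField baseField ℂ := IntermediateField.adjoin baseField Y

/-- the coefficient of `A^{k_1 - 1} B … A^{k_r - 1} B` in the KZ associator -/
noncomputable def coeff (w : List ℕ) : ℂ := (-1) ^ w.length * zeta w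

/-- `D_w(x)` -/
noncomputable def D (w : List ℕ) (x : ℂ) : ℂ := (-1) ^ w.length * T w x

/-- the numbers of the block `b`: the names of the numbers `y_{b, j}`, `j < r_b`, and `D_w(x)`, `w` in `W` in the block `b` -/
def Block (W : Set (List ℕ)) (X : Set ℂ) (β : List ℕ → ℕ) (r : ℕ → ℕ) (b : ℕ) : Set ((ℕ × ℕ) ⊕ (List ℕ × ℂ)) :=
  {p | (∃ j, j < r b ∧ p = Sum.inl (b, j)) ∨ ∃ w x, w ∈ W ∧ x ∈ X ∧ β w = b ∧ p = Sum.inr (w, x)}

/-- the numbers `D_w(x)`, `w` in `W`, are algebraically independent over `𝓚(Y)` -/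
def IndepOver (Y : Set ℂ) (W : Set (List ℕ)) (x : ℂ) : Prop :=
  AlgebraicIndependent (fieldWith Y) (fun w : W => D w x)

open Pool.Agent.N902.EW (II KK)
open Pool.Agent.N778

theorem iterated_eq (w : List ℂ) : ∀ t : ℝ, iterated w t = II w t := by
  induction w with
  | nil => intro t; rfl
  | cons a v ih =>
    intro t
    rw [iterated, II]
    refine intervalIntegral.integral_congr fun s _ => ?_
    show (if a = 0 then 1 else Complex.exp (a * s) - 1) * iterated v s / s = _
    rw [ih]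

theorem baseField_eq : baseField = KK := by
  rw [baseField, KK]
  congr 2
  ext z
  constructor
  · rintro ⟨w, hw, rfl⟩
    exact ⟨w, ⟨hw.1, hw.2.1⟩, hw.2.2, iterated_eq w 1⟩
  · rintro ⟨w, hw, hno, rfl⟩
    exact ⟨w, ⟨hw.1, hw.2, hno⟩, (iterated_eq w 1).symm⟩

theorem ind_iff {ι : Type} (z : ι → ℂ) : AlgebraicIndependent baseField z ↔ AlgebraicIndependent KK z := by
  rw [baseField_eq]

theorem ai_iff {ι : Type} (Y : Set ℂ) (z : ι → ℂ) :
    AlgebraicIndependent (fieldWith Y) z ↔ AlgebraicIndependent (IntermediateField.adjoin KK Y) z := by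
  rw [fieldWith]
  rw [baseField_eq]

theorem alg_iff (Y : Set ℂ) (z : ℂ) : IsAlgebraic (fieldWith Y) z ↔ IsAlgebraic (IntermediateField.adjoin KK Y) z := by
  rw [fieldWith]
  rw [baseField_eq]

theorem H_eq (w : List ℕ) (j : ℕ) : H w j = MZ.H w j := by
  induction w generalizing j with
  | nil => rfl
  | cons k w ih =>
    rw [H, MZ.H]
    exact Finset.sum_congr rfl fun i _ => by rw [ih]

theorem zeta_eq (w : List ℕ) : zeta w = MZ.zt w := by
  rcases w with _ | ⟨k, w⟩
  · rfl
  · rw [zeta, MZ.zt]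
    exact tsum_congr fun i => by rw [H_eq]

theorem tail_eq (w : List ℕ) (j : ℕ) : tail w j = MZ.tl w j := by
  rcases w with _ | ⟨k, w⟩
  · rfl
  · rw [tail, MZ.tl]
    exact tsum_congr fun i => by rw [H_eq]

theorem T_eq (w : List ℕ) (x : ℂ) : T w x = MZ.T w x := by
  rw [T, MZ.T]
  congr 1
  exact tsum_congr fun j => by rw [tail_eq]

theorem lyndon_iff (w : List ℕ) : Lyndon w ↔ MZ.LynO (fun k : ℕ => -(k : ℤ)) w := by
  constructor
  · intro h
    induction h with
    | letter a => exact MZ.LynO.letter a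
    | mul u v _ _ huv hu hv => exact MZ.LynO.mul u v hu hv huv
  · intro h
    induction h with
    | letter a => exact Lyndon.letter a
    | mul u v _ _ huv hu hv => exact Lyndon.mul u v hu hv huv

theorem word_iff (w : List ℕ) : Word w ↔ MZ.GW w := by
  rw [Word, MZ.GW, lyndon_iff]

theorem sign_sq (w : List ℕ) : (-1 : ℂ) ^ w.length * (-1 : ℂ) ^ w.length = 1 := by
  rw [← mul_pow]
  norm_num

theorem D_eq (w : List ℕ) (x : ℂ) : D w x = (-1) ^ w.length * MZ.T w x := by
  rw [D, T_eq]

theorem coeff_eq (w : List ℕ) : coeff w = (-1) ^ w.length * MZ.zt w := by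
  rw [coeff, zeta_eq]

theorem rel (w : List ℕ) (hw : Word w) (x : ℂ) : MZ.S w x = (-1) ^ w.length * (coeff w - D w x) := by
  have h1 := MZ.S_add_Tn ((word_iff w).1 hw).adW x
  rw [coeff_eq, D_eq, ← mul_sub, ← mul_assoc, sign_sq, one_mul]
  exact eq_sub_of_add_eq h1

theorem rel' (w : List ℕ) (hw : Word w) (x : ℂ) : D w x = coeff w - (-1) ^ w.length * MZ.S w x := by
  rw [rel w hw, ← mul_assoc, sign_sq, one_mul]
  ring

/-- the index set -/
abbrev Ix (W : Set (List ℕ)) (X : Set ℂ) : Type := {p : List ℕ × ℂ // p.1 ∈ W ∧ p.2 ∈ X}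

section

variable {X : Set ℂ} {W : Set (List ℕ)}

theorem ai_start (hX : Points X) (hW : ∀ w ∈ W, Word w) :
    AlgebraicIndependent KK (fun p : Ix W X => MZ.S p.1.1 p.1.2) :=
  (MZ.ai_G X hX).comp (fun p : Ix W X => (⟨p.1, (word_iff _).1 (hW _ p.2.1), p.2.2⟩ :
    {p : List ℕ × ℂ // MZ.GW p.1 ∧ p.2 ∈ X})) fun _ _ h =>
      Subtype.ext (congrArg (fun z : {p : List ℕ × ℂ // MZ.GW p.1 ∧ p.2 ∈ X} => z.1) h)

theorem sign_mem (w : List ℕ) (A : Set ℂ) : ((-1 : ℂ) ^ w.length) ∈ Pool.Agent.N902.EW.clf KK A :=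
  (Pool.Agent.N902.EW.clf KK A).pow_mem ((Pool.Agent.N902.EW.clf KK A).neg_mem (Pool.Agent.N902.EW.clf KK A).one_mem) _

theorem S_mem {w : List ℕ} (hw : Word w) (x : ℂ) {A : Set ℂ}
    (hc : coeff w ∈ Pool.Agent.N902.EW.clf KK A) :
    MZ.S w x ∈ Pool.Agent.N902.EW.clf KK (insert (D w x) A) := by
  rw [rel w hw]
  exact (Pool.Agent.N902.EW.clf KK _).mul_mem (sign_mem _ _) ((Pool.Agent.N902.EW.clf KK _).sub_mem
    (Pool.Agent.N902.EW.clf_mono (subset_insert _ _) hc) (Pool.Agent.N902.EW.subset_clf _ (mem_insert _ _)))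

theorem D_mem {w : List ℕ} (hw : Word w) (x : ℂ) {A : Set ℂ}
    (hc : coeff w ∈ Pool.Agent.N902.EW.clf KK A) :
    D w x ∈ Pool.Agent.N902.EW.clf KK (insert (MZ.S w x) A) := by
  rw [rel' w hw]
  exact (Pool.Agent.N902.EW.clf KK _).sub_mem (Pool.Agent.N902.EW.clf_mono (subset_insert _ _) hc)
    ((Pool.Agent.N902.EW.clf KK _).mul_mem (sign_mem _ _) (Pool.Agent.N902.EW.subset_clf _ (mem_insert _ _)))

theorem part1 (hX : Points X) {r : ℕ} (y : Fin r → ℂ)
    (h : ∀ w ∈ W, Word w ∧ IsAlgebraic (fieldWith (range y)) (coeff w)) :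
    ∃ C : Finset (List ℕ × ℂ), C.card ≤ r ∧ AlgebraicIndependent (fieldWith (range y))
      (fun p : {p : List ℕ × ℂ // (p.1 ∈ W ∧ p.2 ∈ X) ∧ p ∉ C} => D p.1.1 p.1.2) := by
  classical
  have hc : ∀ w ∈ W, coeff w ∈ Pool.Agent.N902.EW.clf KK (range y) := fun w hw =>
    Pool.Agent.N902.EW.mem_clf.2 ((alg_iff _ _).1 (h w hw).2)
  obtain ⟨C, hC, hC2⟩ := MZ.exch (t := fun p : Ix W X => D p.1.1 p.1.2) (ai_start hX fun w hw => (h w hw).1) y
    (fun p => S_mem (h _ p.2.1).1 _ (hc _ p.2.1)) (fun p => D_mem (h _ p.2.1).1 _ (hc _ p.2.1))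
  refine ⟨C.image Subtype.val, Finset.card_image_le.trans hC, ?_⟩
  rw [ai_iff]
  have hin : ∀ p : {p : List ℕ × ℂ // (p.1 ∈ W ∧ p.2 ∈ X) ∧ p ∉ C.image Subtype.val}, (⟨p.1, p.2.1⟩ : Ix W X) ∉ C := by
    intro p hp
    exact p.2.2 (Finset.mem_image.2 ⟨_, hp, rfl⟩)
  exact hC2.comp (fun p : {p : List ℕ × ℂ // (p.1 ∈ W ∧ p.2 ∈ X) ∧ p ∉ C.image Subtype.val} =>
    (⟨⟨p.1, p.2.1⟩, hin p⟩ : {i : Ix W X // i ∉ C})) fun _ _ h =>
      Subtype.ext (congrArg (fun z : {i : Ix W X // i ∉ C} => z.1.1) h)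

theorem part2 (hX : Points X) (β : List ℕ → ℕ) (r : ℕ → ℕ) (y : ℕ → ℕ → ℂ)
    (h : ∀ w ∈ W, Word w ∧ IsAlgebraic (fieldWith (y (β w) '' {j | j < r (β w)})) (coeff w)) :
    ∃ K : Set ((ℕ × ℕ) ⊕ (List ℕ × ℂ)), (∀ b, (Block W X β r b \ K).encard ≤ r b) ∧
      AlgebraicIndependent baseField (fun p : K => Sum.elim (fun q => y q.1 q.2) (fun q => D q.1 q.2) p.1) := by
  classical
  have hc : ∀ w ∈ W, coeff w ∈ Pool.Agent.N902.EW.clf KK (y (β w) '' {j | j < r (β w)}) := fun w hw =>
    Pool.Agent.N902.EW.mem_clf.2 ((alg_iff _ _).1 (h w hw).2)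
  obtain ⟨K, hK, hK2, hK3⟩ := MZ.block_exch (β := fun p : Ix W X => β p.1.1) (r := r) (y := y)
    (t := fun p : Ix W X => D p.1.1 p.1.2) (ai_start hX fun w hw => (h w hw).1)
    (fun p => S_mem (h _ p.2.1).1 _ (hc _ p.2.1)) (fun p => D_mem (h _ p.2.1).1 _ (hc _ p.2.1))
  let e : (ℕ × ℕ) ⊕ (Ix W X ⊕ Ix W X) → (ℕ × ℕ) ⊕ (List ℕ × ℂ) := Sum.map id (Sum.elim Subtype.val Subtype.val)
  refine ⟨e '' K, fun b => ?_, ?_⟩
  · refine (encard_le_encard (t := e '' (MZ.Nb (fun p : Ix W X => β p.1.1) r b \ K)) ?_).trans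
      ((encard_image_le _ _).trans (hK3 b))
    rintro p ⟨⟨j, hj, rfl⟩ | ⟨w, x, hw, hx, hb, rfl⟩, hp⟩
    · exact ⟨Sum.inl (b, j), ⟨Or.inl ⟨j, rfl, hj⟩, fun hk => hp ⟨_, hk, rfl⟩⟩, rfl⟩
    · exact ⟨Sum.inr (Sum.inl ⟨(w, x), hw, hx⟩), ⟨Or.inr ⟨_, rfl, hb⟩, fun hk => hp ⟨_, hk, rfl⟩⟩, rfl⟩
  · rw [ind_iff]
    choose g hg hg2 using fun p : ↥(e '' K) => p.2
    have h1 := hK2.comp (fun p : ↥(e '' K) => (⟨g p, hg p⟩ : K)) fun p q hpq => by
      have h2 : g p = g q := congrArg (fun z : K => z.1) hpq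
      exact Subtype.ext (by rw [← hg2 p, ← hg2 q, h2])
    have h2 : (fun p : K => MZ.Vv y (fun p : Ix W X => D p.1.1 p.1.2) (fun p : Ix W X => MZ.S p.1.1 p.1.2) p) ∘
        (fun p : ↥(e '' K) => (⟨g p, hg p⟩ : K)) =
        fun p : ↥(e '' K) => Sum.elim (fun q => y q.1 q.2) (fun q => D q.1 q.2) p.1 := by
      funext p
      show MZ.Vv y _ _ (g p) = _
      conv_rhs => rw [← hg2 p]
      obtain ⟨m, h3⟩ := hK _ (hg p)
      rcases h3 with ⟨j, h3, -⟩ | ⟨i, h3, -⟩
      · rw [h3]; rfl
      · rw [h3]; rfl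
    rw [← h2]
    exact h1

theorem part3 (hX : Points X) {r : ℕ} (y : Fin r → ℂ)
    (h : ∀ w ∈ W, Word w ∧ IsAlgebraic (fieldWith (range y)) (coeff w)) :
    {x : ℂ | x ∈ X ∧ ¬ IndepOver (range y) W x}.encard ≤ r := by
  classical
  obtain ⟨C, hC, hC2⟩ := part1 hX y h
  have h1 : {x : ℂ | x ∈ X ∧ ¬ IndepOver (range y) W x} ⊆ ((C.image Prod.snd : Finset ℂ) : Set ℂ) := by
    rintro x ⟨hx, hx2⟩
    by_contra hcon
    refine hx2 ?_
    have hin : ∀ w : W, (w.1, x) ∉ C := fun w hw => hcon (Finset.mem_coe.2 (Finset.mem_image.2 ⟨_, hw, rfl⟩))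
    exact hC2.comp (fun w : W => (⟨(w.1, x), ⟨w.2, hx⟩, hin w⟩ :
      {p : List ℕ × ℂ // (p.1 ∈ W ∧ p.2 ∈ X) ∧ p ∉ C})) fun _ _ h =>
        Subtype.ext (congrArg (fun z : {p : List ℕ × ℂ // (p.1 ∈ W ∧ p.2 ∈ X) ∧ p ∉ C} => z.1.1) h)
  refine (encard_le_encard h1).trans ?_
  rw [encard_coe_eq_coe_finsetCard]
  exact_mod_cast Finset.card_image_le.trans hC

end

/-- **Few exceptions over the field of the coefficients of the KZ associator** -/
theorem result (X : Set ℂ) (hX : Points X) (W : Set (List ℕ)) (hW : ∀ w ∈ W, Word w) :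
    -- the limit cases `x = 0` and `x → ∞`
    (∀ w ∈ W, 2 ≤ w.headD 0 ∧ D w 0 = coeff w ∧ Tendsto (fun x : ℝ => D w x) atTop (𝓝 0)) ∧
    -- (1)
    (∀ (r : ℕ) (y : Fin r → ℂ), (∀ w ∈ W, IsAlgebraic (fieldWith (range y)) (coeff w)) →
      ∃ C : Finset (List ℕ × ℂ), C.card ≤ r ∧ AlgebraicIndependent (fieldWith (range y))
        (fun p : {p : List ℕ × ℂ // (p.1 ∈ W ∧ p.2 ∈ X) ∧ p ∉ C} => D p.1.1 p.1.2)) ∧
    -- (2)
    (∀ (β : List ℕ → ℕ) (r : ℕ → ℕ) (y : ℕ → ℕ → ℂ),
      (∀ w ∈ W, IsAlgebraic (fieldWith (y (β w) '' {j | j < r (β w)})) (coeff w)) →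
      ∃ K : Set ((ℕ × ℕ) ⊕ (List ℕ × ℂ)), (∀ b, (Block W X β r b \ K).encard ≤ r b) ∧
        AlgebraicIndependent baseField (fun p : K => Sum.elim (fun q => y q.1 q.2) (fun q => D q.1 q.2) p.1)) ∧
    -- (3)
    (∀ (r : ℕ) (y : Fin r → ℂ), (∀ w ∈ W, IsAlgebraic (fieldWith (range y)) (coeff w)) →
      {x : ℂ | x ∈ X ∧ ¬ IndepOver (range y) W x}.encard ≤ r) := by
  refine ⟨fun w hw => ?_, fun r y hy => part1 hX y fun w hw => ⟨hW w hw, hy w hw⟩,
    fun β r y hy => part2 hX β r y fun w hw => ⟨hW w hw, hy w hw⟩,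
    fun r y hy => part3 hX y fun w hw => ⟨hW w hw, hy w hw⟩⟩
  have hw' : MZ.AdW w := ((word_iff w).1 (hW w hw)).adW
  refine ⟨?_, ?_, ?_⟩
  · rcases w with _ | ⟨k, w⟩
    · exact absurd hw' id
    · exact hw'.1
  · rw [D_eq, coeff_eq, MZ.T_zeron hw']
  · have h1 : Tendsto (fun x : ℝ => (-1 : ℂ) ^ w.length * (MZ.zt w - MZ.S w x)) atTop (𝓝 ((-1 : ℂ) ^ w.length * (MZ.zt w - MZ.zt w))) :=
      ((MZ.Sn_tendsto hw').const_sub _).const_mul _
    rw [sub_self, mul_zero] at h1
    refine h1.congr fun x => ?_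
    rw [D_eq, ← MZ.S_add_Tn hw' (x : ℂ)]
    ring

end Pool.Agent.Results.MP_807c24_nt.FewExceptions
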