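import Pool.Agent.Results.MP_807c24_nt.DegreeAtMostThree
import Pool.Agent.N743.SD.Rank

/-!
# Near relations between values of the KZ associator: the evolution of their span with the scale

`μ = 2πi`, `φ = ζ(3)` and `t_1, …, t_r` arbitrary complex numbers (for instance further coefficients of the logarithm of
the KZ associator). `N(X)` is the rational span of the near relations at the scale `X` between
`1, μ, μ², μ³, φ, μφ, t_1, …, t_r`.

The proof uses the measure of linear independence of the first six numbers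
(`Pool.Agent.Results.MP_807c24_nt.DegreeAtMostThree.measure`).
-/

set_option autoImplicit false

open Filter Module

namespace Pool.Agent.Results.MP_807c24_nt.SubspaceDichotomy

/-- `1, μ, μ², μ³, φ, μφ, t_1, …, t_r` with `μ = 2πi`, `φ = ζ(3)` -/
noncomputable def family {r : ℕ} (t : Fin r → ℂ) : Fin 6 ⊕ Fin r → ℂ :=
  Sum.elim (![1, 2 * Real.pi * Complex.I, (2 * Real.pi * Complex.I) ^ 2, (2 * Real.pi * Complex.I) ^ 3,
    ((∑' n : ℕ, 1 / ((n : ℝ) + 1) ^ 3 : ℝ) : ℂ),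
    2 * Real.pi * Complex.I * ((∑' n : ℕ, 1 / ((n : ℝ) + 1) ^ 3 : ℝ) : ℂ)] : Fin 6 → ℂ) t

/-- the near relations at the scale `X`: integer vectors with coordinates at most `X ^ θ` whose value is at most
`1 / X` -/
def near {r : ℕ} (t : Fin r → ℂ) (θ X : ℝ) : Set (Fin 6 ⊕ Fin r → ℤ) :=
  {a | (∀ i, |(a i : ℝ)| ≤ X ^ θ) ∧ ‖∑ i, (a i : ℂ) * family t i‖ ≤ 1 / X}

/-- `N(X)`: the rational span of the near relations at the scale `X` -/
noncomputable def span {r : ℕ} (t : Fin r → ℂ) (θ X : ℝ) : Submodule ℚ (Fin 6 ⊕ Fin r → ℚ) :=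
  Submodule.span ℚ ((fun a i => (a i : ℚ)) '' near t θ X)

/-- the space of the exact rational linear relations -/
noncomputable def relations {r : ℕ} (t : Fin r → ℂ) : Submodule ℚ (Fin 6 ⊕ Fin r → ℚ) :=
  LinearMap.ker (Fintype.linearCombination ℚ (family t))

theorem family_eq {r : ℕ} (t : Fin r → ℂ) : family t =
    Sum.elim (![1, DegreeAtMostThree.mu, DegreeAtMostThree.mu ^ 2, DegreeAtMostThree.mu ^ 3,
      DegreeAtMostThree.zeta3, DegreeAtMostThree.mu * DegreeAtMostThree.zeta3] : Fin 6 → ℂ) t := rfl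

/-- Let `μ = 2πi`, `φ = ζ(3)`, `r ≥ 0`, `θ > 0`, `M > 1` with `456 (r + 1) M θ < 1`. There is `X₁` such that for all
complex numbers `t_1, …, t_r` (with `N(X)` the span of the near relations and `R` the space of the exact relations
between `1, μ, μ², μ³, φ, μφ, t_1, …, t_r`):

1. `dim N(X) ≤ r` for all `X ≥ X₁`;
2. `dim R ≤ r`, and if `dim R = r` then `N(X) = R` for all large `X`;
3. if `dim R < r`, `X ≥ X₁` and `dim N(X) = r` then there is `Z ≥ X` with `N(Y) ⊆ N(X)` for `X ≤ Y ≤ Z` and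
   `dim N(Y) < r` for `Z < Y ≤ Z ^ M`;
4. if `dim R < r` then for arbitrarily large `Z`, `dim N(Y) < r` for all `Z < Y ≤ Z ^ M`;
5. `dim R = r` if and only if `dim N(X) = r` for all large `X`. -/
theorem result : ∀ (r : ℕ) (θ M : ℝ), 0 < θ → 1 < M → 456 * (r + 1) * M * θ < 1 →
    ∃ X₁ : ℝ, ∀ t : Fin r → ℂ,
      (∀ X, X₁ ≤ X → finrank ℚ (span t θ X) ≤ r) ∧
      finrank ℚ (relations t) ≤ r ∧
      (finrank ℚ (relations t) = r → ∀ᶠ X : ℝ in atTop, span t θ X = relations t) ∧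
      (finrank ℚ (relations t) < r → ∀ X, X₁ ≤ X → finrank ℚ (span t θ X) = r → ∃ Z, X ≤ Z ∧
        (∀ Y, X ≤ Y → Y ≤ Z → span t θ Y ≤ span t θ X) ∧
          ∀ Y, Z < Y → Y ≤ Z ^ M → finrank ℚ (span t θ Y) < r) ∧
      (finrank ℚ (relations t) < r → ∀ X : ℝ, ∃ Z, X ≤ Z ∧
        ∀ Y, Z < Y → Y ≤ Z ^ M → finrank ℚ (span t θ Y) < r) ∧
      (finrank ℚ (relations t) = r ↔ ∀ᶠ X : ℝ in atTop, finrank ℚ (span t θ X) = r) := by
  intro r θ M hθ hM h
  obtain ⟨c, hc, hm⟩ := DegreeAtMostThree.measure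
  obtain ⟨X₁, hX₁⟩ := Pool.Agent.N743.SD.dich_of_measure
    (![1, DegreeAtMostThree.mu, DegreeAtMostThree.mu ^ 2, DegreeAtMostThree.mu ^ 3,
      DegreeAtMostThree.zeta3, DegreeAtMostThree.mu * DegreeAtMostThree.zeta3] : Fin 6 → ℂ) 227 c hc (by
      intro P hP H hH hPH
      rw [DegreeAtMostThree.value_eq]
      exact hm P hP H hH hPH) r θ M hθ hM (by push_cast; linarith)
  refine ⟨X₁, fun t => ?_⟩
  have h1 := hX₁ t
  rw [← family_eq] at h1
  exact ⟨h1.a, h1.b, h1.b', h1.c, h1.d, h1.e⟩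

end Pool.Agent.Results.MP_807c24_nt.SubspaceDichotomy
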